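import Pool.Agent.R974.Span.Don

open MeasureTheory ProbabilityTheory Filter Topology Set TopologicalSpace
open scoped ENNReal NNReal unitInterval

namespace Pool.Agent.Results.MP_52e894_pr.SpanInvariance

/-- A simple symmetric random walk on `ℤ`: the steps are independent and equal to `±1` with
probability `1/2` each. The starting point `RW 0` is arbitrary. -/
structure IsSimpleRandomWalk {Ω : Type*} [MeasurableSpace Ω] (RW : ℕ → Ω → ℤ) (P : Measure Ω) :
    Prop where
  measurable : ∀ k, Measurable (RW k)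
  indep : iIndepFun (fun k ω => RW (k + 1) ω - RW k ω) P
  up : ∀ k, P {ω | RW (k + 1) ω - RW k ω = 1} = 1 / 2
  down : ∀ k, P {ω | RW (k + 1) ω - RW k ω = -1} = 1 / 2

/-- The span set `{t - s : 0 ≤ s ≤ t ≤ 1, f s = f t}`, as a subset of `[0, 1]`. -/
def spanSet (f : ℝ≥0 → ℝ) : Set I :=
  {u | ∃ s t : ℝ≥0, s ≤ t ∧ t ≤ 1 ∧ f s = f t ∧ (u : ℝ) = t - s}

/-- The rescaled set of spans in `N` steps `(1/N) {k - l : 0 ≤ l ≤ k ≤ N, Z k = Z l}`, as a subset
of `[0, 1]`. -/
def walkSpanSet (N : ℕ) (Z : ℕ → ℤ) : Set I :=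
  {u | ∃ l k : ℕ, l ≤ k ∧ k ≤ N ∧ Z k = Z l ∧ (u : ℝ) = ((k : ℝ) - l) / N}

lemma spanSet_nonempty (f : ℝ≥0 → ℝ) : (spanSet f).Nonempty :=
  ⟨0, 0, 0, le_rfl, zero_le, rfl, by simp⟩

lemma walkSpanSet_nonempty (N : ℕ) (Z : ℕ → ℤ) : (walkSpanSet N Z).Nonempty :=
  ⟨0, 0, 0, le_rfl, Nat.zero_le _, rfl, by simp⟩

/-- The closure of a nonempty subset of `[0, 1]`, as a point of the space `𝒦` of nonempty compact
subsets of `[0, 1]` (with the Hausdorff metric). -/
def toK (A : Set I) (hA : A.Nonempty) : NonemptyCompacts I :=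
  ⟨⟨closure A, isClosed_closure.isCompact⟩, hA.closure⟩

/-- `Sp^{[0,1]}(1)` as a random element of `𝒦`. -/
def bmSpan {Ω : Type*} (B : ℝ≥0 → Ω → ℝ) (ω : Ω) : NonemptyCompacts I :=
  toK (spanSet fun t => B t ω) (spanSet_nonempty _)

/-- `(1/N) Sp^N_{RW}(1)` as a random element of `𝒦`. -/
def rwSpan {Ω : Type*} (RW : ℕ → Ω → ℤ) (N : ℕ) (ω : Ω) : NonemptyCompacts I :=
  toK (walkSpanSet N fun k => RW k ω) (walkSpanSet_nonempty _ _)

open Pool.Agent.R974.Span

lemma image_spanSet (f : ℝ≥0 → ℝ) : Subtype.val '' spanSet f = Sp f := by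
  ext u
  constructor
  · rintro ⟨v, ⟨s, t, h1, h2, h3, h4⟩, rfl⟩
    exact ⟨s, t, h1, h2, h3, h4⟩
  · rintro ⟨s, t, h1, h2, h3, h4⟩
    have h5 : (s : ℝ) ≤ t := h1
    have h6 : (t : ℝ) ≤ 1 := h2
    have h7 : (0 : ℝ) ≤ s := s.2
    exact ⟨⟨u, by rw [h4]; linarith, by rw [h4]; linarith⟩, ⟨s, t, h1, h2, h3, h4⟩, rfl⟩

lemma image_walkSpanSet (N : ℕ) (Z : ℕ → ℤ) :
    Subtype.val '' walkSpanSet N Z = SpN N (fun k => (Z k : ℝ)) := by
  ext u
  constructor
  · rintro ⟨v, ⟨l, k, h1, h2, h3, h4⟩, rfl⟩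
    exact ⟨l, k, h1, h2, by simp only [h3], h4⟩
  · rintro ⟨l, k, h1, h2, h3, h4⟩
    have h5 : (l : ℝ) ≤ k := by exact_mod_cast h1
    have h6 : (k : ℝ) ≤ N := by exact_mod_cast h2
    have h7 : (0:ℝ) ≤ l := by positivity
    have h8 : (Z k : ℝ) = Z l := h3
    refine ⟨⟨u, ?_, ?_⟩, ⟨l, k, h1, h2, by exact_mod_cast h8, h4⟩, rfl⟩
    · rw [h4]; exact div_nonneg (by linarith) (by linarith)
    · rw [h4]; exact div_le_one_of_le₀ (by linarith) (by linarith)

lemma dist_toK (N : ℕ) (Z : ℕ → ℤ) (f : ℝ≥0 → ℝ) :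
    dist (toK (walkSpanSet N Z) (walkSpanSet_nonempty _ _)) (toK (spanSet f) (spanSet_nonempty _)) =
      Metric.hausdorffDist (SpN N (fun k => (Z k : ℝ))) (Sp f) := by
  rw [Metric.NonemptyCompacts.dist_eq]
  change Metric.hausdorffDist (closure (walkSpanSet N Z)) (closure (spanSet f)) = _
  rw [Metric.hausdorffDist_closure, ← image_spanSet, ← image_walkSpanSet,
    Metric.hausdorffDist_image isometry_subtype_coe]

lemma isClosed_spanSet {f : ℝ≥0 → ℝ} (hf : Continuous f) : IsClosed (spanSet f) := by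
  have h1 : IsClosed (Subtype.val '' spanSet f) := by
    rw [image_spanSet]; exact (isCompact_Sp hf).isClosed
  have h2 : spanSet f = Subtype.val ⁻¹' (Subtype.val '' spanSet f) :=
    (Set.preimage_image_eq _ Subtype.val_injective).symm
  rw [h2]
  exact h1.preimage continuous_subtype_val

/-- **The rescaled span sets of simple random walk converge in distribution to the span set of
Brownian motion.** -/
theorem result {Ω Ω' : Type*} [MeasurableSpace Ω] [MeasurableSpace Ω'] {P : Measure Ω}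
    {P' : Measure Ω'} [IsProbabilityMeasure P] [IsProbabilityMeasure P']
    [MeasurableSpace (NonemptyCompacts I)] [BorelSpace (NonemptyCompacts I)]
    {RW : ℕ → Ω → ℤ} (hRW : IsSimpleRandomWalk RW P)
    {B : ℝ≥0 → Ω' → ℝ} (hB : IsBrownianReal B P') :
    (∀ᵐ ω ∂P', (bmSpan B ω : Set I) = spanSet fun t => B t ω) ∧
    (∀ N ω, (rwSpan RW N ω : Set I) = walkSpanSet N fun k => RW k ω) ∧
    TendstoInDistribution (fun N => rwSpan RW N) atTop (bmSpan B) (fun _ => P) P' := by
  obtain ⟨B', hB', hBB'⟩ := good_version hB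
  set ξ : ℕ → Ω → ℤ := fun k ω => RW (k + 1) ω - RW k ω with hξdef
  have hξ : Steps ξ P := ⟨fun k => (hRW.measurable _).sub (hRW.measurable _), hRW.indep,
    hRW.up, hRW.down⟩
  refine ⟨?_, ?_, ?_⟩
  · filter_upwards [hBB'] with ω hω
    have h1 : (fun t => B t ω) = fun t => B' t ω := by funext t; exact (hω t).symm
    change closure (spanSet fun t => B t ω) = _
    rw [h1]
    exact (isClosed_spanSet (hB'.cont ω)).closure_eq
  · intro N ω
    change closure (walkSpanSet N fun k => RW k ω) = _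
    refine (Set.Finite.isClosed ?_).closure_eq
    have h1 : (walkSpanSet N fun k => RW k ω) ⊆ Subtype.val ⁻¹'
        ((fun p : ℕ × ℕ => ((p.2 : ℝ) - p.1) / N) ''
          ((Finset.range (N + 1) ×ˢ Finset.range (N + 1) : Finset (ℕ × ℕ)) : Set (ℕ × ℕ))) := by
      rintro u ⟨l, k, h1, h2, h3, h4⟩
      refine ⟨(l, k), ?_, h4.symm⟩
      simp only [Finset.coe_product, Set.mem_prod, Finset.coe_range, Set.mem_Iio]
      omega
    exact (((Finset.finite_toSet _).image _).preimage Subtype.val_injective.injOn).subset h1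
  · have h1 : TendstoInDistribution
        (fun N ω => toK (walkSpanSet N fun k => walk ξ k ω) (walkSpanSet_nonempty _ _)) atTop
        (bmSpan B') (fun _ => P) P' := by
      refine donsker hξ hB' (T := fun N z => toK (walkSpanSet N z) (walkSpanSet_nonempty _ _))
        ?_ ?_
      · intro N z z' hzz
        have : walkSpanSet N z = walkSpanSet N z' := by
          ext u
          constructor
          · rintro ⟨l, k, h1, h2, h3, h4⟩
            exact ⟨l, k, h1, h2, by rw [← hzz k h2, ← hzz l (h1.trans h2)]; exact h3, h4⟩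
          · rintro ⟨l, k, h1, h2, h3, h4⟩
            exact ⟨l, k, h1, h2, by rw [hzz k h2, hzz l (h1.trans h2)]; exact h3, h4⟩
        simp only [this]
      · filter_upwards [ae_ndg hB'] with ω hω ε hε
        obtain ⟨δ, hδ, N0, hN0⟩ := stab (hB'.cont ω) hω hε
        refine ⟨δ, hδ, N0, fun N hN hN' a ha z hz hclose => ?_⟩
        have h2 := hN0 N hN hN' a ha z hz hclose
        change dist (toK (walkSpanSet N z) _) (toK (spanSet fun t => B' t ω) _) ≤ ε
        rw [dist_toK]
        exact h2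
    refine h1.congr (fun N => ?_) ?_
    · filter_upwards with ω
      have h2 : ∀ k, walk ξ k ω = RW k ω - RW 0 ω := by
        intro k
        simp only [walk, hξdef]
        exact Finset.sum_range_sub (fun k => RW k ω) k
      have h3 : (walkSpanSet N fun k => walk ξ k ω) = walkSpanSet N fun k => RW k ω := by
        ext u
        simp only [walkSpanSet, Set.mem_ofPred_eq, h2, sub_left_inj]
      simp only [rwSpan, h3]
    · filter_upwards [hBB'] with ω hω
      have h2 : (fun t => B' t ω) = fun t => B t ω := by funext t; exact hω t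
      simp only [bmSpan, h2]

end Pool.Agent.Results.MP_52e894_pr.SpanInvariance
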